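import Pool.Agent.L7h80.RC.Stm

/-!
# Part PR of project RC: primes above the ideal of a branch
-/

set_option autoImplicit false
set_option linter.all false

namespace Pool.Agent.L7h61.RC

open MvPowerSeries Pool.Agent.L7h80.RC

/-- `onBranch` as a ring homomorphism. -/
noncomputable def brHom (hBR : S_BR) {n : ℕ} (w : Fin n → ℕ) (hw : ∀ i, 0 < w i) (c : Fin n → ℂ) :
    PS n →+* PowerSeries ℂ where
  toFun := onBranch w c
  map_one' := by
    have h := (hBR n w hw c).2.2.1 1
    rw [map_one, map_one] at h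
    exact h
  map_zero' := by
    have h := (hBR n w hw c).2.2.1 0
    rw [map_zero, map_zero] at h
    exact h
  map_mul' := (hBR n w hw c).2.1
  map_add' := (hBR n w hw c).1

theorem s_PR (hBR : S_BR) (hSP : S_SP) : S_PR := by
  intro n w hw c hc p hp
  set φ := brHom hBR w hw c with hφ
  have hpφ : ∀ f, f ∈ p ↔ φ f = 0 := hp
  have hC : ∀ a : ℂ, φ (C a) = PowerSeries.C a := (hBR n w hw c).2.2.1
  have hX : ∀ i, φ (X i) = PowerSeries.C (c i) * PowerSeries.X ^ w i := (hBR n w hw c).2.2.2
  have hpk : p = RingHom.ker φ := by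
    ext f
    rw [RingHom.mem_ker, hpφ]
  have hpp : p.IsPrime := by
    rw [hpk]
    exact RingHom.ker_isPrime φ
  refine ⟨hpp, fun q hq hpq => ?_⟩
  -- the maximal ideal
  set M : Ideal (PS n) := RingHom.ker (constantCoeff : PS n →+* ℂ) with hM
  have hMp : M.IsPrime := RingHom.ker_isPrime _
  have hqM : ∀ r : Ideal (PS n), r.IsPrime → r ≤ M := by
    intro r hr f hf
    rw [hM, RingHom.mem_ker]
    by_contra hne
    apply hr.ne_top
    refine Ideal.eq_top_of_isUnit_mem r hf ?_
    rw [MvPowerSeries.isUnit_iff_constantCoeff]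
    exact (isUnit_iff_ne_zero.2 hne)
  have hMX : ∀ i, (X i : PS n) ∈ M := by
    intro i
    rw [hM, RingHom.mem_ker, MvPowerSeries.constantCoeff_X]
  rcases (hqM q hq).lt_or_eq with hlt | heq
  · left
    obtain ⟨i₀, hi₀⟩ : ∃ i, c i ≠ 0 := by
      by_contra hcon
      push Not at hcon
      exact hc (funext hcon)
    have hmin : M ∈ (Ideal.span (insert (X i₀ : PS n) (p : Set (PS n)))).minimalPrimes := by
      refine ⟨⟨hMp, ?_⟩, ?_⟩
      · rw [Ideal.span_le, Set.insert_subset_iff]
        exact ⟨hMX i₀, fun f hf => hqM p hpp hf⟩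
      · rintro r ⟨hr, hle⟩ - f hf
        rw [Ideal.span_le, Set.insert_subset_iff] at hle
        have hXr : ∀ i, (X i : PS n) ∈ r := by
          intro i
          have h1 : (X i : PS n) ^ w i₀ * C (c i₀ ^ w i) - C (c i ^ w i₀) * X i₀ ^ w i ∈ p := by
            have e1 : φ ((X i : PS n) ^ w i₀ * C (c i₀ ^ w i)) =
                (PowerSeries.C (c i) * PowerSeries.X ^ w i) ^ w i₀ * (PowerSeries.C (c i₀)) ^ w i := by
              rw [RingHom.map_mul, RingHom.map_pow, hX, hC, RingHom.map_pow]
            have e2 : φ (C (c i ^ w i₀) * (X i₀ : PS n) ^ w i) =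
                (PowerSeries.C (c i)) ^ w i₀ * (PowerSeries.C (c i₀) * PowerSeries.X ^ w i₀) ^ w i := by
              rw [RingHom.map_mul, hC, RingHom.map_pow, RingHom.map_pow, hX]
            rw [hpφ, RingHom.map_sub, e1, e2]
            ring
          have h2 : C (c i ^ w i₀) * (X i₀ : PS n) ^ w i ∈ r :=
            r.mul_mem_left _ (Ideal.pow_mem_of_mem r hle.1 _ (hw i))
          have h3 : (X i : PS n) ^ w i₀ * C (c i₀ ^ w i) ∈ r := by
            have := r.add_mem (hle.2 h1) h2
            rwa [sub_add_cancel] at this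
          rcases hr.mem_or_mem h3 with h4 | h4
          · exact hr.mem_of_pow_mem _ h4
          · exfalso
            apply hr.ne_top
            refine Ideal.eq_top_of_isUnit_mem r h4 ?_
            exact (isUnit_iff_ne_zero.2 (pow_ne_zero _ hi₀)).map (C : ℂ →+* PS n)
        have h5 := hSP n f hf
        refine (Ideal.span_le.2 ?_) h5
        rintro _ ⟨i, rfl⟩
        exact hXr i
    have h6 := Ideal.mem_minimalPrimes_span_of_mem_minimalPrimes_span_insert (q := q) hlt
      (X i₀ : PS n) (p : Set (PS n)) hmin (p : Set (PS n)) hpq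
      (fun f hf => Ideal.le_radical (Ideal.subset_span (Set.mem_insert_of_mem _ hf)))
    rw [Ideal.span_eq] at h6
    exact (le_antisymm hpq (h6.2 ⟨hpp, le_rfl⟩ hpq)).symm
  · right
    intro i
    rw [heq]
    exact hMX i

end Pool.Agent.L7h61.RC
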